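import Mathlib

open MeasureTheory Set Real Filter
open scoped ENNReal

namespace Pool.Agent.Results.MP_d56d33_an.No

/-- The interval `[t₀, T)` with `T ≤ ∞`. -/
def J (t₀ : ℝ) (T : EReal) : Set ℝ := {t | t₀ ≤ t ∧ (t : EReal) < T}

/-- Admissible gains `k`, `φ`. -/
def Admissible (k φ : ℝ → ℝ) : Prop :=
  (∃ ε > 0, ∀ t ≥ 0, ε ≤ k t) ∧ (∀ b ≥ 0, AbsolutelyContinuousOnInterval k 0 b) ∧ φ 0 = 0 ∧
    ∃ η₁ η₂ : ℝ, 0 < η₁ ∧ η₁ < η₂ ∧ ∀ σ ≠ 0, η₁ * σ ^ 2 ≤ σ * φ σ ∧ σ * φ σ ≤ η₂ * σ ^ 2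

/-- `x` solves `x' = -p₀ x - k(t) φ(q₀ x) + f(t)` on `[t₀, T)` (the case `n = 1`, `m = 0`,
`p(s) = s + p₀`, `q(s) = q₀`). -/
def IsSol (p₀ q₀ : ℝ) (k φ f : ℝ → ℝ) (t₀ : ℝ) (T : EReal) (x : ℝ → ℝ) : Prop :=
  0 ≤ t₀ ∧ (t₀ : EReal) < T ∧
  (∀ b ∈ J t₀ T, AbsolutelyContinuousOnInterval x t₀ b ∧
    IntervalIntegrable (fun t => φ (q₀ * x t)) volume t₀ b) ∧
  ∀ᵐ t, t ∈ J t₀ T → HasDerivAt x (-p₀ * x t - k t * φ (q₀ * x t) + f t) t

/-- Exponential stability of the null solution of the unforced system. -/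
def ExpStable (p₀ q₀ : ℝ) (k φ : ℝ → ℝ) : Prop :=
  ∃ ε₁ > 0, ∃ ε₂ > 0, ∀ t₀ T x, IsSol p₀ q₀ k φ 0 t₀ T x →
    ∀ t ∈ J t₀ T, |x t| ≤ ε₂ * |x t₀| * exp (-ε₁ * (t - t₀))

/-- `L₂`-stability of the forced system. -/
def L2Stable (p₀ q₀ : ℝ) (k φ : ℝ → ℝ) : Prop :=
  ∀ η₁ ≥ 0, ∀ η₂ ≥ 0, ∃ η₃ : ℝ, ∀ f t₀ T x, Measurable f →
    ∫⁻ t in Ici 0, ENNReal.ofReal (f t ^ 2) < ENNReal.ofReal η₂ → IsSol p₀ q₀ k φ f t₀ T x →
    |x t₀| < η₁ → ∫⁻ t in J t₀ T, ENNReal.ofReal (x t ^ 2) ≤ ENNReal.ofReal η₃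

lemma tanh_sector (σ : ℝ) : 0 ≤ σ * tanh σ ∧ σ * tanh σ ≤ 2 * σ ^ 2 := by
  wlog h : 0 ≤ σ generalizing σ
  · simpa [tanh_neg] using this (-σ) (by linarith)
  have h1 : 0 ≤ sinh σ := sinh_nonneg_iff.2 h
  have h2 := cosh_pos σ
  refine ⟨by rw [tanh_eq_sinh_div_cosh]; positivity, ?_⟩
  have : tanh σ ≤ 2 * σ := by
    rw [tanh_eq, div_le_iff₀ (by positivity)]
    have e : exp (-σ) = exp σ * exp (-(2 * σ)) := by rw [← exp_add]; ring_nf
    have := add_one_le_exp (-(2 * σ))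
    nlinarith [exp_pos σ, exp_pos (-σ), mul_nonneg h (exp_pos (-σ)).le]
  nlinarith

lemma hasDerivAt_V (y : ℝ) : HasDerivAt (fun y => log (cosh y)) (tanh y) y := by
  rw [tanh_eq_sinh_div_cosh]
  exact (hasDerivAt_cosh y).log (cosh_pos y).ne'

theorem result : Admissible (fun _ => 1) (fun σ => σ + tanh σ) ∧
    L2Stable (-1) 1 (fun _ => 1) (fun σ => σ + tanh σ) ∧
    ¬ ExpStable (-1) 1 (fun _ => 1) (fun σ => σ + tanh σ) := by
  refine ⟨⟨⟨1, one_pos, fun _ _ => le_rfl⟩, fun b _ => contDiffOn_const.absolutelyContinuousOnInterval,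
    by simp, 1, 3, one_pos, by norm_num, fun σ _ => ?_⟩, fun η₁ h₁ η₂ h₂ => ?_, ?_⟩
  · have := tanh_sector σ
    constructor <;> nlinarith
  · set B := log (cosh η₁) + η₂ / 2
    refine ⟨2 * B * exp B ^ 2, fun f t₀ T x hf hf2 ⟨h0, hT, hx, hd⟩ hx0 => ?_⟩
    have hV : LipschitzWith 1 fun y => log (cosh y) := lipschitzWith_of_nnnorm_deriv_le
      (fun y => (hasDerivAt_V y).differentiableAt) fun y => by
        rw [(hasDerivAt_V y).deriv, ← NNReal.coe_le_coe]; simpa using (abs_tanh_lt_one y).le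
    have fi : IntegrableOn (fun t => f t ^ 2) (Ici 0) :=
      ⟨(hf.pow_const 2).aestronglyMeasurable, (hasFiniteIntegral_iff_ofReal
        (ae_of_all _ fun t => sq_nonneg _)).2 (hf2.trans ENNReal.ofReal_lt_top)⟩
    have fl : ∫ t in Ici 0, f t ^ 2 ≤ η₂ := by
      rw [← ofReal_integral_eq_lintegral_ofReal fi (ae_of_all _ fun t => sq_nonneg _)] at hf2
      exact ((ENNReal.ofReal_lt_ofReal_iff_of_nonneg
        (integral_nonneg fun t => sq_nonneg _)).1 hf2).le
    have cont : ∀ b ∈ J t₀ T, ContinuousOn x (uIcc t₀ b) := fun b hb => (hx b hb).1.continuousOn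
    have ct : Continuous tanh := by
      rw [show tanh = fun y => sinh y / cosh y from funext tanh_eq_sinh_div_cosh]
      exact continuous_sinh.div continuous_cosh fun y => (cosh_pos y).ne'
    have key : ∀ b ∈ J t₀ T, log (cosh (x b)) + (∫ t in t₀..b, tanh (x t) ^ 2) / 2 ≤ B := by
      intro b hb
      have ac : AbsolutelyContinuousOnInterval (fun t => log (cosh (x t))) t₀ b := by
        have := (hx b hb).1
        rw [absolutelyContinuousOnInterval_iff] at *
        intro ε hε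
        obtain ⟨δ, h1, h2⟩ := this ε hε
        refine ⟨δ, h1, fun E a c => lt_of_le_of_lt (Finset.sum_le_sum fun i _ => ?_) (h2 E a c)⟩
        simpa using hV.dist_le_mul _ _
      have e := ac.integral_deriv_eq_sub
      have i1 : IntervalIntegrable (fun t => f t ^ 2) volume t₀ b :=
        (fi.mono_set (by rw [uIcc_of_le hb.1]; exact fun t ht => h0.trans ht.1)).intervalIntegrable
      have i2 : IntervalIntegrable (fun t => tanh (x t) ^ 2) volume t₀ b :=
        ((ct.comp_continuousOn (cont b hb)).pow 2).intervalIntegrable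
      have le : ∫ t in t₀..b, deriv (fun t => log (cosh (x t))) t ≤
          ∫ t in t₀..b, (f t ^ 2 / 2 - tanh (x t) ^ 2 / 2) := by
        refine intervalIntegral.integral_mono_ae_restrict hb.1 ac.intervalIntegrable_deriv
          ((i1.div_const 2).sub (i2.div_const 2)) ?_
        filter_upwards [ae_restrict_mem measurableSet_Icc, ae_restrict_of_ae hd] with t ht h
        have := ((hasDerivAt_V (x t)).comp t (h ⟨ht.1, lt_of_le_of_lt
          (EReal.coe_le_coe_iff.2 ht.2) hb.2⟩)).deriv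
        simp only [Function.comp_def] at this
        rw [this]
        simp only [one_mul]
        nlinarith [sq_nonneg (tanh (x t) - f t)]
      rw [intervalIntegral.integral_sub (i1.div_const 2) (i2.div_const 2),
        intervalIntegral.integral_div, intervalIntegral.integral_div, e] at le
      have a1 : ∫ t in t₀..b, f t ^ 2 ≤ ∫ t in Ici 0, f t ^ 2 := by
        rw [intervalIntegral.integral_of_le hb.1]
        exact setIntegral_mono_set fi (ae_of_all _ fun t => sq_nonneg _)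
          (ae_of_all _ fun t ht => h0.trans ht.1.le)
      have a2 : log (cosh (x t₀)) ≤ log (cosh η₁) :=
        log_le_log (cosh_pos _) (cosh_le_cosh.2 (hx0.le.trans (le_abs_self _)))
      simp only [B]; linarith
    have nn : ∀ b ∈ J t₀ T, 0 ≤ ∫ t in t₀..b, tanh (x t) ^ 2 := fun b hb =>
      intervalIntegral.integral_nonneg hb.1 fun t _ => sq_nonneg _
    have bd : ∀ b ∈ J t₀ T, x b ^ 2 ≤ tanh (x b) ^ 2 * exp B ^ 2 := fun b hb => by
      have h1 : cosh (x b) ≤ exp B := by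
        rw [← log_le_iff_le_exp (cosh_pos _)]; linarith [key b hb, nn b hb]
      have h2 : x b ^ 2 ≤ sinh (x b) ^ 2 := by
        rw [sq_le_sq, abs_sinh]; exact self_le_sinh_iff.2 (abs_nonneg _)
      have h3 : sinh (x b) = tanh (x b) * cosh (x b) := by
        rw [tanh_eq_sinh_div_cosh, div_mul_cancel₀ _ (cosh_pos _).ne']
      rw [h3, mul_pow] at h2
      exact h2.trans (by have := cosh_pos (x b); gcongr)
    have fin : ∀ b ∈ J t₀ T, ∫⁻ t in Icc t₀ b, ENNReal.ofReal (x t ^ 2) ≤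
        ENNReal.ofReal (2 * B * exp B ^ 2) := fun b hb => by
      have c1 := cont b hb
      have i0 : Integrable (fun t => x t ^ 2) (volume.restrict (Icc t₀ b)) :=
        uIcc_of_le hb.1 ▸ (c1.pow 2).integrableOn_uIcc
      rw [← ofReal_integral_eq_lintegral_ofReal i0 (ae_of_all _ fun t => sq_nonneg _),
        integral_Icc_eq_integral_Ioc, ← intervalIntegral.integral_of_le hb.1]
      refine ENNReal.ofReal_le_ofReal ?_
      have := intervalIntegral.integral_mono_on (μ := volume) (f := fun t => x t ^ 2)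
        (g := fun t => tanh (x t) ^ 2 * exp B ^ 2) hb.1 (c1.pow 2).intervalIntegrable
        (((ct.comp_continuousOn c1).pow 2).intervalIntegrable.mul_const (exp B ^ 2))
        fun t ht => bd t ⟨ht.1, lt_of_le_of_lt (EReal.coe_le_coe_iff.2 ht.2) hb.2⟩
      rw [intervalIntegral.integral_mul_const] at this
      refine this.trans ?_
      have h1 := log_nonneg (one_le_cosh (x b))
      have h2 := key b hb
      gcongr
      linarith
    have un : J t₀ T = ⋃ q : {q : ℚ // (q : ℝ) ∈ J t₀ T}, Icc t₀ (q.1 : ℝ) := by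
      refine Subset.antisymm (fun t ht => ?_) (iUnion_subset fun q t ht =>
        ⟨ht.1, lt_of_le_of_lt (EReal.coe_le_coe_iff.2 ht.2) q.2.2⟩)
      obtain ⟨q, h1, h2⟩ := EReal.exists_rat_btwn_of_lt ht.2
      have h3 := (EReal.coe_lt_coe_iff.1 h1).le
      exact mem_iUnion.2 ⟨⟨q, ht.1.trans h3, h2⟩, ht.1, h3⟩
    rw [un, setLIntegral_iUnion_of_directed _ (directed_of_isDirected_le fun a b h =>
      Icc_subset_Icc_right (by exact_mod_cast h))]
    exact iSup_le fun q => fin _ q.2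
  · rintro ⟨ε₁, h₁, ε₂, h₂, h⟩
    obtain ⟨s, hs1, hs2⟩ : ∃ s > 0, 2 * ε₂ * exp (-ε₁ * s) < 1 := by
      refine ⟨2 * ε₂ / ε₁, by positivity, ?_⟩
      rw [show -ε₁ * (2 * ε₂ / ε₁) = -(2 * ε₂) by field_simp, exp_neg, ← div_eq_mul_inv,
        div_lt_one (exp_pos _)]
      linarith [add_one_le_exp (2 * ε₂)]
    have sm : ContDiff ℝ 1 fun t : ℝ => arsinh (sinh (2 * s) * exp (-t)) :=
      contDiff_arsinh.comp (by fun_prop)
    have ct : Continuous tanh := by
      rw [show tanh = fun y => sinh y / cosh y from funext tanh_eq_sinh_div_cosh]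
      exact continuous_sinh.div continuous_cosh fun y => (cosh_pos y).ne'
    have := h 0 ⊤ (fun t => arsinh (sinh (2 * s) * exp (-t))) ⟨le_rfl, by simp, fun b _ =>
      ⟨sm.contDiffOn.absolutelyContinuousOnInterval, Continuous.intervalIntegrable
        (by have := sm.continuous; fun_prop) _ _⟩, ae_of_all _ fun t _ => ?_⟩ s ⟨hs1.le, by simp⟩
    · simp only [neg_zero, exp_zero, mul_one, arsinh_sinh, sub_zero] at this
      have h3 : s ≤ arsinh (sinh (2 * s) * exp (-s)) := by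
        rw [← sinh_le_sinh, sinh_arsinh, ← cosh_sub_sinh]
        conv_lhs => rw [show s = 2 * s - s by ring, sinh_sub]
        nlinarith [sinh_lt_cosh (2 * s), sinh_pos_iff.2 hs1]
      rw [abs_of_pos (by positivity : 0 < 2 * s)] at this
      nlinarith [le_abs_self (arsinh (sinh (2 * s) * exp (-s)))]
    · refine (((hasDerivAt_neg t).exp.const_mul (sinh (2 * s))).arsinh).congr_deriv ?_
      simp only [one_mul, tanh_arsinh, smul_eq_mul, Pi.zero_apply]
      ring

end Pool.Agent.Results.MP_d56d33_an.No
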